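import Pool.Graph.R_seed8.Helper583.Model

/-!
# A group with a closed subset, for one single word

The permutations of `K × W2 × K`, `K = ZMod 2311`, `2311 = 2 · 3 · 5 · 7 · 11 + 1`.
-/

set_option autoImplicit false

namespace Pool.Agent.H11.OW

open Pool.Agent.Helper583 (cm yc cm_one_left cm_one_right yc_one_left yc_one_right actW actW_nil
  actW_cons pow_one_of pow_self_of)

universe u

section group

variable {G : Type u} [Group G]

/-- the constant of the letter -/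
def sl (x1 x2 : G) : Bool → G
  | false => x1 ^ 3558940
  | true => x2 ^ 3203046

/-- the exponent of the letter -/
def qq : Bool → ℕ
  | false => 623
  | true => 902

/-- the guarded inverse of the first family -/
def uz (d z : G) : G := cm (z ^ 2802030) (d ^ 762630)

/-- the guarded inverse of the second family -/
def uh (e h : G) : G := cm (h ^ 1792560) (e ^ 485310)

/-- the factor of the letter operator on the first family -/
def zs (x0 x1 x2 d : G) (k : Bool) (z : G) : G :=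
  uz d z * cm (cm (uz d z ^ qq k) (x0 ^ 2669205)) (sl x1 x2 k)

/-- the factor of the letter operator on the second family -/
def ys (x0 x1 x2 e : G) (k : Bool) (h : G) : G :=
  uh e h * yc (yc (uh e h ^ qq k) (sl x1 x2 k)) (x0 ^ 2669205)

/-- the letter operator on the first family -/
def Zl (x0 x1 x2 d : G) (k : Bool) (z : G) : G := z * zs x0 x1 x2 d k z

/-- the letter operator on the second family -/
def Yl (x0 x1 x2 e : G) (k : Bool) (h : G) : G := h * ys x0 x1 x2 e k h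

/-- the vertex word -/
def Pv (d e z h : G) : G := cm (cm (z ^ 5336100) (d ^ 762630)) (cm (h ^ 5336100) (e ^ 485310))

def Zw (x0 x1 x2 d : G) (g : List Bool) (z : G) : G :=
  g.foldl (fun z k => Zl x0 x1 x2 d k z) z

def Yw (x0 x1 x2 e : G) (g : List Bool) (z : G) : G :=
  g.foldl (fun z k => Yl x0 x1 x2 e k z) z

@[simp] theorem Zw_nil (x0 x1 x2 d z : G) : Zw x0 x1 x2 d [] z = z := rfl
@[simp] theorem Zw_cons (x0 x1 x2 d z : G) (k : Bool) (g : List Bool) :
    Zw x0 x1 x2 d (k :: g) z = Zw x0 x1 x2 d g (Zl x0 x1 x2 d k z) := rfl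

theorem cm_pow_self (a : G) (m n : ℕ) : cm (a ^ m) (a ^ n) = 1 := by
  have h := (Commute.refl a).pow_pow m n
  unfold cm
  rw [mul_assoc, h.eq]
  group

theorem uz_self (a : G) : uz a a = 1 := cm_pow_self a _ _
theorem uh_self (a : G) : uh a a = 1 := cm_pow_self a _ _
theorem zs_self (a : G) (k : Bool) : zs a a a a k a = 1 := by
  simp [zs, uz_self]
theorem ys_self (a : G) (k : Bool) : ys a a a a k a = 1 := by
  simp [ys, uh_self]
theorem Pv_self (a b c : G) : Pv a b a c = 1 := by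
  rw [Pv, cm_pow_self, cm_one_left]

theorem Zl_self (a : G) (k : Bool) : Zl a a a a k a = a := by
  rw [Zl, zs_self, mul_one]
theorem Yl_self (a : G) (k : Bool) : Yl a a a a k a = a := by
  rw [Yl, ys_self, mul_one]
theorem Zw_self (a : G) (g : List Bool) : Zw a a a a g a = a := by
  induction g with
  | nil => rfl
  | cons k g ih => rw [Zw_cons, Zl_self, ih]

end group

/-! ### The model -/

abbrev K := ZMod 2311

section model
variable (s : Type u)

abbrev W2 := (s → K) × (s → K)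
abbrev VV := K × W2 s × K

variable {s}

def Zp (a : W2 s →ₗ[K] K) : Equiv.Perm (VV s) where
  toFun v := (v.1 + a v.2.1, v.2.1, v.2.2)
  invFun v := (v.1 - a v.2.1, v.2.1, v.2.2)
  left_inv v := by simp
  right_inv v := by simp

def Hp (b : W2 s) : Equiv.Perm (VV s) where
  toFun v := (v.1, v.2.1 + v.2.2 • b, v.2.2)
  invFun v := (v.1, v.2.1 - v.2.2 • b, v.2.2)
  left_inv v := by simp
  right_inv v := by simp

def Xp (X : W2 s ≃ₗ[K] W2 s) : Equiv.Perm (VV s) where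
  toFun v := (v.1, X v.2.1, v.2.2)
  invFun v := (v.1, X.symm v.2.1, v.2.2)
  left_inv v := by simp
  right_inv v := by simp

def Cp (m : K) : Equiv.Perm (VV s) where
  toFun v := (v.1 + v.2.2 * m, v.2.1, v.2.2)
  invFun v := (v.1 - v.2.2 * m, v.2.1, v.2.2)
  left_inv v := by simp
  right_inv v := by simp

theorem kl : (159 : K) * 1468 = 1 := by decide
theorem km : (409 : K) * 1503 = 1 := by decide

def Dp : Equiv.Perm (VV s) where
  toFun v := (159 * v.1, v.2.1, v.2.2)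
  invFun v := (1468 * v.1, v.2.1, v.2.2)
  left_inv v := by
    have : (1468 : K) * (159 * v.1) = v.1 := by
      rw [← mul_assoc, mul_comm (1468 : K) 159, kl, one_mul]
    simp [this]
  right_inv v := by
    have : (159 : K) * (1468 * v.1) = v.1 := by
      rw [← mul_assoc, kl, one_mul]
    simp [this]

def Ep : Equiv.Perm (VV s) where
  toFun v := (v.1, v.2.1, 409 * v.2.2)
  invFun v := (v.1, v.2.1, 1503 * v.2.2)
  left_inv v := by
    have : (1503 : K) * (409 * v.2.2) = v.2.2 := by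
      rw [← mul_assoc, mul_comm (1503 : K) 409, km, one_mul]
    simp [this]
  right_inv v := by
    have : (409 : K) * (1503 * v.2.2) = v.2.2 := by
      rw [← mul_assoc, km, one_mul]
    simp [this]

@[simp] theorem Zp_apply (a : W2 s →ₗ[K] K) (v : VV s) : Zp a v = (v.1 + a v.2.1, v.2.1, v.2.2) := rfl
@[simp] theorem Zp_symm_apply (a : W2 s →ₗ[K] K) (v : VV s) :
    (Zp a).symm v = (v.1 - a v.2.1, v.2.1, v.2.2) := rfl
@[simp] theorem Hp_apply (b : W2 s) (v : VV s) : Hp b v = (v.1, v.2.1 + v.2.2 • b, v.2.2) := rfl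
@[simp] theorem Hp_symm_apply (b : W2 s) (v : VV s) :
    (Hp b).symm v = (v.1, v.2.1 - v.2.2 • b, v.2.2) := rfl
@[simp] theorem Xp_apply (X : W2 s ≃ₗ[K] W2 s) (v : VV s) : Xp X v = (v.1, X v.2.1, v.2.2) := rfl
@[simp] theorem Xp_symm_apply (X : W2 s ≃ₗ[K] W2 s) (v : VV s) :
    (Xp X).symm v = (v.1, X.symm v.2.1, v.2.2) := rfl
@[simp] theorem Cp_apply (m : K) (v : VV s) : Cp m v = (v.1 + v.2.2 * m, v.2.1, v.2.2) := rfl
@[simp] theorem Cp_symm_apply (m : K) (v : VV s) :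
    (Cp m).symm v = (v.1 - v.2.2 * m, v.2.1, v.2.2) := rfl
@[simp] theorem Dp_apply (v : VV s) : Dp v = (159 * v.1, v.2.1, v.2.2) := rfl
@[simp] theorem Dp_symm_apply (v : VV s) : Dp.symm v = (1468 * v.1, v.2.1, v.2.2) := rfl
@[simp] theorem Ep_apply (v : VV s) : Ep v = (v.1, v.2.1, 409 * v.2.2) := rfl
@[simp] theorem Ep_symm_apply (v : VV s) : Ep.symm v = (v.1, v.2.1, 1503 * v.2.2) := rfl

theorem Zp_zero : Zp (0 : W2 s →ₗ[K] K) = 1 := by
  ext v <;> simp

theorem Hp_zero : Hp (0 : W2 s) = 1 := by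
  ext v <;> simp

theorem Zp_add (a b : W2 s →ₗ[K] K) : Zp a * Zp b = Zp (a + b) := by
  ext v <;> simp [add_comm, add_left_comm]

theorem Hp_add (a b : W2 s) : Hp a * Hp b = Hp (a + b) := by
  ext v <;> simp [add_comm, add_left_comm]

theorem Zp_pow (a : W2 s →ₗ[K] K) (n : ℕ) : Zp a ^ n = Zp ((n : K) • a) := by
  induction n with
  | zero => simp [Zp_zero]
  | succ n ih => rw [pow_succ, ih, Zp_add, Nat.cast_succ, add_smul, one_smul]

theorem Hp_pow (a : W2 s) (n : ℕ) : Hp a ^ n = Hp ((n : K) • a) := by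
  induction n with
  | zero => simp [Hp_zero]
  | succ n ih => rw [pow_succ, ih, Hp_add, Nat.cast_succ, add_smul, one_smul]

theorem cm_Zp_Xp (a : W2 s →ₗ[K] K) (X : W2 s ≃ₗ[K] W2 s) :
    cm (Zp a) (Xp X) = Zp (a ∘ₗ (X : W2 s →ₗ[K] W2 s) - a) := by
  ext v <;> simp [cm, Equiv.Perm.mul_apply, Equiv.Perm.inv_def, add_sub_assoc]

theorem yc_Hp_Xp (b : W2 s) (X : W2 s ≃ₗ[K] W2 s) :
    yc (Hp b) (Xp X) = Hp (X b - b) := by
  ext v <;> simp [yc, Equiv.Perm.mul_apply, Equiv.Perm.inv_def, mul_sub, add_sub_assoc]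

theorem cm_Zp_Dp (a : W2 s →ₗ[K] K) :
    cm (Zp a) Dp = Zp (((1468 : K) - 1) • a) := by
  ext v <;> simp [cm, Equiv.Perm.mul_apply, Equiv.Perm.inv_def]
  linear_combination (v.1) * kl

theorem cm_Hp_Dp (b : W2 s) :
    cm (Hp b) Dp = 1 := by
  ext v <;> simp [cm, Equiv.Perm.mul_apply, Equiv.Perm.inv_def]
  linear_combination (v.1) * kl

theorem cm_Zp_Ep (a : W2 s →ₗ[K] K) :
    cm (Zp a) Ep = 1 := by
  ext v <;> simp [cm, Equiv.Perm.mul_apply, Equiv.Perm.inv_def]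
  linear_combination (v.2.2) * km

theorem cm_Hp_Ep (b : W2 s) :
    cm (Hp b) Ep = Hp (((409 : K) - 1) • b) := by
  ext v <;> simp [cm, Equiv.Perm.mul_apply, Equiv.Perm.inv_def]
  · rename_i x
    linear_combination (-(v.2.2 * b.1 x)) * km
  · rename_i x
    linear_combination (-(v.2.2 * b.2 x)) * km
  · linear_combination (v.2.2) * km

theorem cm_Zp_Hp (a : W2 s →ₗ[K] K) (b : W2 s) :
    cm (Zp a) (Hp b) = Cp (a b) := by
  ext v <;> simp [cm, Equiv.Perm.mul_apply, Equiv.Perm.inv_def]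
  ring

theorem Xp_mul (X Y : W2 s ≃ₗ[K] W2 s) : Xp X * Xp Y = Xp (X * Y) := by
  ext v <;> simp [Equiv.Perm.mul_apply]

theorem Xp_one : Xp (1 : W2 s ≃ₗ[K] W2 s) = 1 := by
  ext v <;> simp

theorem Xp_pow (X : W2 s ≃ₗ[K] W2 s) (n : ℕ) : Xp X ^ n = Xp (X ^ n) := by
  induction n with
  | zero => simp [Xp_one]
  | succ n ih => rw [pow_succ, ih, Xp_mul, pow_succ]

/-- `1 + c e` for an idempotent `e` -/
def Xi (e : W2 s →ₗ[K] W2 s) (he : ∀ v, e (e v) = e v) (c c' : K) (h : c + c' + c * c' = 0) :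
    W2 s ≃ₗ[K] W2 s where
  toFun v := v + c • e v
  invFun v := v + c' • e v
  map_add' v w := by simp only [map_add, smul_add]; abel
  map_smul' a v := by simp only [map_smul, RingHom.id_apply, smul_add, smul_comm c a]
  left_inv v := by
    simp only [map_add, map_smul, he, smul_add, smul_smul]
    have : c • e v + (c' • e v + (c' * c) • e v) = (c + c' + c * c') • e v := by
      rw [add_smul, add_smul, mul_comm c' c]; abel
    rw [add_assoc, this, h, zero_smul, add_zero]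
  right_inv v := by
    simp only [map_add, map_smul, he, smul_add, smul_smul]
    have : c' • e v + (c • e v + (c * c') • e v) = (c + c' + c * c') • e v := by
      rw [add_smul, add_smul]; abel
    rw [add_assoc, this, h, zero_smul, add_zero]

@[simp] theorem Xi_apply (e : W2 s →ₗ[K] W2 s) (he : ∀ v, e (e v) = e v) (c c' : K)
    (h : c + c' + c * c' = 0) (v : W2 s) : Xi e he c c' h v = v + c • e v := rfl

theorem Xi_sub (e : W2 s →ₗ[K] W2 s) (he : ∀ v, e (e v) = e v) (c c' : K)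
    (h : c + c' + c * c' = 0) (v : W2 s) : Xi e he c c' h v - v = c • e v := by
  rw [Xi_apply, add_sub_cancel_left]

theorem Xi_pow_apply (e : W2 s →ₗ[K] W2 s) (he : ∀ v, e (e v) = e v) (c c' : K)
    (h : c + c' + c * c' = 0) (n : ℕ) (v : W2 s) :
    (Xi e he c c' h ^ n) v = v + ((1 + c) ^ n - 1) • e v := by
  induction n with
  | zero => simp
  | succ n ih =>
    rw [pow_succ', LinearEquiv.mul_apply, ih, Xi_apply]
    simp only [map_add, map_smul, he, smul_add, smul_smul]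
    rw [add_assoc, ← add_smul, ← add_smul]
    congr 2
    ring

theorem Xi_pow_eq_one (e : W2 s →ₗ[K] W2 s) (he : ∀ v, e (e v) = e v) (c c' : K)
    (h : c + c' + c * c' = 0) (n : ℕ) (hn : (1 + c) ^ n = 1) : Xi e he c c' h ^ n = 1 := by
  ext v : 1
  rw [Xi_pow_apply, hn]
  simp

/-- projection to the first component -/
def e0 : W2 s →ₗ[K] W2 s := (LinearMap.inl K (s → K) (s → K)).comp (LinearMap.fst K (s → K) (s → K))

theorem e0_apply (v : W2 s) : e0 v = (v.1, 0) := rfl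

theorem e0_idem (v : W2 s) : e0 (e0 v) = e0 v := rfl

/-- sum of the two components -/
def sm : W2 s →ₗ[K] (s → K) := LinearMap.fst K (s → K) (s → K) + LinearMap.snd K (s → K) (s → K)

theorem sm_apply (v : W2 s) : sm v = v.1 + v.2 := rfl

/-- the idempotent attached to an operator -/
def eA (A : (s → K) →ₗ[K] (s → K)) : W2 s →ₗ[K] W2 s :=
  (A.comp sm).prod (sm - A.comp sm)

theorem eA_apply (A : (s → K) →ₗ[K] (s → K)) (v : W2 s) :
    eA A v = (A (v.1 + v.2), v.1 + v.2 - A (v.1 + v.2)) := rfl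

theorem eA_idem (A : (s → K) →ₗ[K] (s → K)) (v : W2 s) : eA A (eA A v) = eA A v := by
  simp [eA_apply]

variable (A1 A2 : (s → K) →ₗ[K] (s → K))

def x0X : W2 s ≃ₗ[K] W2 s := Xi e0 e0_idem (-2) (-2) (by decide)
def x1X : W2 s ≃ₗ[K] W2 s := Xi (eA A1) (eA_idem A1) 881 1427 (by decide)
def x2X : W2 s ≃ₗ[K] W2 s := Xi (eA A2) (eA_idem A2) 196 2005 (by decide)

def x0m : Equiv.Perm (VV s) := Xp x0X
def x1m : Equiv.Perm (VV s) := Xp (x1X A1)
def x2m : Equiv.Perm (VV s) := Xp (x2X A2)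

theorem x0m_ord : (x0m : Equiv.Perm (VV s)) ^ 2 = 1 := by
  rw [x0m, x0X, Xp_pow, Xi_pow_eq_one _ _ _ _ _ _ (by decide), Xp_one]
theorem x1m_ord : (x1m A1 : Equiv.Perm (VV s)) ^ 3 = 1 := by
  rw [x1m, x1X, Xp_pow, Xi_pow_eq_one _ _ _ _ _ _ (by decide), Xp_one]
theorem x2m_ord : (x2m A2 : Equiv.Perm (VV s)) ^ 5 = 1 := by
  rw [x2m, x2X, Xp_pow, Xi_pow_eq_one _ _ _ _ _ _ (by decide), Xp_one]

theorem Dp_pow_apply (n : ℕ) (v : VV s) : (Dp ^ n) v = ((159 : K) ^ n * v.1, v.2.1, v.2.2) := by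
  induction n with
  | zero => simp
  | succ n ih =>
    rw [pow_succ', Equiv.Perm.mul_apply, ih, Dp_apply]
    ext <;> simp
    ring

theorem Ep_pow_apply (n : ℕ) (v : VV s) : (Ep ^ n) v = (v.1, v.2.1, (409 : K) ^ n * v.2.2) := by
  induction n with
  | zero => simp
  | succ n ih =>
    rw [pow_succ', Equiv.Perm.mul_apply, ih, Ep_apply]
    ext <;> simp
    ring

theorem Dp_ord : (Dp : Equiv.Perm (VV s)) ^ 7 = 1 := by
  ext v <;> rw [Dp_pow_apply] <;> simp
  have h : (159 : K) ^ 7 = 1 := by decide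
  linear_combination (v.1) * h

theorem Ep_ord : (Ep : Equiv.Perm (VV s)) ^ 11 = 1 := by
  ext v <;> rw [Ep_pow_apply] <;> simp
  have h : (409 : K) ^ 11 = 1 := by decide
  linear_combination (v.2.2) * h

theorem Zp_ord (a : W2 s →ₗ[K] K) (n : ℕ) (hn : (n : K) = 0) : Zp a ^ n = 1 := by
  rw [Zp_pow, hn, zero_smul, Zp_zero]
theorem Hp_ord (a : W2 s) (n : ℕ) (hn : (n : K) = 0) : Hp a ^ n = 1 := by
  rw [Hp_pow, hn, zero_smul, Hp_zero]

/-- the closed subset -/
inductive InS : Equiv.Perm (VV s) → Prop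
  | x0 : InS x0m
  | x1 : InS (x1m A1)
  | x2 : InS (x2m A2)
  | d : InS Dp
  | e : InS Ep
  | Z (a : W2 s →ₗ[K] K) : InS (Zp a)
  | H (b : W2 s) : InS (Hp b)

variable {A1 A2}

theorem InS.one : InS A1 A2 (1 : Equiv.Perm (VV s)) := by
  rw [← Zp_zero]; exact InS.Z 0

theorem pow_x0 {g : Equiv.Perm (VV s)} (h : InS A1 A2 g) : g ^ 2669205 = 1 ∨ g ^ 2669205 = x0m := by
  cases h with
  | x0 => exact Or.inr (pow_self_of x0m_ord 1334602)
  | x1 => exact Or.inl (pow_one_of (x1m_ord A1) 889735)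
  | x2 => exact Or.inl (pow_one_of (x2m_ord A2) 533841)
  | d => exact Or.inl (pow_one_of Dp_ord 381315)
  | e => exact Or.inl (pow_one_of Ep_ord 242655)
  | Z a => exact Or.inl (Zp_ord a _ (by decide))
  | H a => exact Or.inl (Hp_ord a _ (by decide))

theorem pow_x1 {g : Equiv.Perm (VV s)} (h : InS A1 A2 g) : g ^ 3558940 = 1 ∨ g ^ 3558940 = x1m A1 := by
  cases h with
  | x0 => exact Or.inl (pow_one_of x0m_ord 1779470)
  | x1 => exact Or.inr (pow_self_of (x1m_ord A1) 1186313)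
  | x2 => exact Or.inl (pow_one_of (x2m_ord A2) 711788)
  | d => exact Or.inl (pow_one_of Dp_ord 508420)
  | e => exact Or.inl (pow_one_of Ep_ord 323540)
  | Z a => exact Or.inl (Zp_ord a _ (by decide))
  | H a => exact Or.inl (Hp_ord a _ (by decide))

theorem pow_x2 {g : Equiv.Perm (VV s)} (h : InS A1 A2 g) : g ^ 3203046 = 1 ∨ g ^ 3203046 = x2m A2 := by
  cases h with
  | x0 => exact Or.inl (pow_one_of x0m_ord 1601523)
  | x1 => exact Or.inl (pow_one_of (x1m_ord A1) 1067682)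
  | x2 => exact Or.inr (pow_self_of (x2m_ord A2) 640609)
  | d => exact Or.inl (pow_one_of Dp_ord 457578)
  | e => exact Or.inl (pow_one_of Ep_ord 291186)
  | Z a => exact Or.inl (Zp_ord a _ (by decide))
  | H a => exact Or.inl (Hp_ord a _ (by decide))

theorem pow_d {g : Equiv.Perm (VV s)} (h : InS A1 A2 g) : g ^ 762630 = 1 ∨ g ^ 762630 = Dp := by
  cases h with
  | x0 => exact Or.inl (pow_one_of x0m_ord 381315)
  | x1 => exact Or.inl (pow_one_of (x1m_ord A1) 254210)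
  | x2 => exact Or.inl (pow_one_of (x2m_ord A2) 152526)
  | d => exact Or.inr (pow_self_of Dp_ord 108947)
  | e => exact Or.inl (pow_one_of Ep_ord 69330)
  | Z a => exact Or.inl (Zp_ord a _ (by decide))
  | H a => exact Or.inl (Hp_ord a _ (by decide))

theorem pow_e {g : Equiv.Perm (VV s)} (h : InS A1 A2 g) : g ^ 485310 = 1 ∨ g ^ 485310 = Ep := by
  cases h with
  | x0 => exact Or.inl (pow_one_of x0m_ord 242655)
  | x1 => exact Or.inl (pow_one_of (x1m_ord A1) 161770)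
  | x2 => exact Or.inl (pow_one_of (x2m_ord A2) 97062)
  | d => exact Or.inl (pow_one_of Dp_ord 69330)
  | e => exact Or.inr (pow_self_of Ep_ord 44119)
  | Z a => exact Or.inl (Zp_ord a _ (by decide))
  | H a => exact Or.inl (Hp_ord a _ (by decide))

/-- classification of the closed subset -/
theorem InS.cases' {g : Equiv.Perm (VV s)} (h : InS A1 A2 g) :
    g ^ 2310 = 1 ∨ (∃ a, g = Zp a) ∨ (∃ b, g = Hp b) := by
  cases h with
  | x0 => exact Or.inl (pow_one_of x0m_ord 1155)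
  | x1 => exact Or.inl (pow_one_of (x1m_ord A1) 770)
  | x2 => exact Or.inl (pow_one_of (x2m_ord A2) 462)
  | d => exact Or.inl (pow_one_of Dp_ord 330)
  | e => exact Or.inl (pow_one_of Ep_ord 210)
  | Z a => exact Or.inr (Or.inl ⟨a, rfl⟩)
  | H a => exact Or.inr (Or.inr ⟨a, rfl⟩)

/-- the separating property -/
theorem InS.sep {g : Equiv.Perm (VV s)} (h : InS A1 A2 g) : (g (0, 0, 1)).1 = 0 := by
  cases h with
  | x0 => simp [x0m]
  | x1 => simp [x1m]
  | x2 => simp [x2m]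
  | d => simp
  | e => simp
  | Z a => simp
  | H a => simp

/-! ### degenerate arguments -/

theorem uz_const {G : Type u} [Group G] {d z : G} (hz : z ^ 2310 = 1) : uz d z = 1 := by
  rw [uz, show 2802030 = 2310 * 1213 by norm_num, pow_one_of hz, cm_one_left]

theorem uh_const {G : Type u} [Group G] {e h : G} (hh : h ^ 2310 = 1) : uh e h = 1 := by
  rw [uh, show 1792560 = 2310 * 776 by norm_num, pow_one_of hh, cm_one_left]

theorem zs_of {G : Type u} [Group G] {x0 x1 x2 d z : G} (h : uz d z = 1) (k : Bool) :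
    zs x0 x1 x2 d k z = 1 := by simp [zs, h]

theorem ys_of {G : Type u} [Group G] {x0 x1 x2 e z : G} (h : uh e z = 1) (k : Bool) :
    ys x0 x1 x2 e k z = 1 := by simp [ys, h]

theorem Zw_of {G : Type u} [Group G] {x0 x1 x2 d z : G} (h : uz d z = 1) (g : List Bool) :
    Zw x0 x1 x2 d g z = z := by
  induction g with
  | nil => rfl
  | cons k g ih => rw [Zw_cons, Zl, zs_of h, mul_one, ih]

theorem Pv_z {G : Type u} [Group G] {d e z h : G} (hz : z ^ 2310 = 1) : Pv d e z h = 1 := by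
  rw [Pv, show 5336100 = 2310 * 2310 by norm_num, pow_one_of hz]
  simp

theorem Pv_h {G : Type u} [Group G] {d e z h : G} (hz : h ^ 2310 = 1) : Pv d e z h = 1 := by
  rw [Pv, show 5336100 = 2310 * 2310 by norm_num, pow_one_of hz]
  simp

theorem Pv_d {G : Type u} [Group G] {d e z h : G} (hd : d ^ 762630 = 1) : Pv d e z h = 1 := by
  simp [Pv, hd]

theorem Pv_e {G : Type u} [Group G] {d e z h : G} (he : e ^ 485310 = 1) : Pv d e z h = 1 := by
  simp [Pv, he]

theorem uz_Hp {d : Equiv.Perm (VV s)} (hd : InS A1 A2 d) (b : W2 s) : uz d (Hp b) = 1 := by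
  rcases pow_d hd with h | h
  · rw [uz, h, cm_one_right]
  · rw [uz, h, Hp_pow, cm_Hp_Dp]

theorem uh_Zp {e : Equiv.Perm (VV s)} (he : InS A1 A2 e) (a : W2 s →ₗ[K] K) : uh e (Zp a) = 1 := by
  rcases pow_e he with h | h
  · rw [uh, h, cm_one_right]
  · rw [uh, h, Zp_pow, cm_Zp_Ep]

theorem uz_Zp {d : Equiv.Perm (VV s)} (hd : d ^ 762630 = Dp) (a : W2 s →ₗ[K] K) :
    uz d (Zp a) = Zp (-a) := by
  rw [uz, hd, Zp_pow, cm_Zp_Dp, smul_smul]
  have h : ((1468 : K) - 1) * ((2802030 : ℕ) : K) = -1 := by decide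
  rw [h, neg_one_smul]

theorem uh_Hp {e : Equiv.Perm (VV s)} (he : e ^ 485310 = Ep) (b : W2 s) :
    uh e (Hp b) = Hp (-b) := by
  rw [uh, he, Hp_pow, cm_Hp_Ep, smul_smul]
  have h : ((409 : K) - 1) * ((1792560 : ℕ) : K) = -1 := by decide
  rw [h, neg_one_smul]

theorem Pv_Hp {d : Equiv.Perm (VV s)} (hd : InS A1 A2 d) (e : Equiv.Perm (VV s)) (b : W2 s)
    (w : Equiv.Perm (VV s)) : Pv d e (Hp b) w = 1 := by
  rcases pow_d hd with h | h
  · exact Pv_d h
  · rw [Pv, h, Hp_pow, cm_Hp_Dp, cm_one_left]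

theorem Pv_Zp {e : Equiv.Perm (VV s)} (he : InS A1 A2 e) (d : Equiv.Perm (VV s))
    (a : W2 s →ₗ[K] K) (z : Equiv.Perm (VV s)) : Pv d e z (Zp a) = 1 := by
  rcases pow_e he with h | h
  · exact Pv_e h
  · rw [Pv, h, Zp_pow, cm_Zp_Ep, cm_one_right]

/-- the scalar of the pairing -/
def ab : K := ((1468 : K) - 1) * ((409 : K) - 1)

theorem Pv_ZH {d e : Equiv.Perm (VV s)} (hd : d ^ 762630 = Dp) (he : e ^ 485310 = Ep)
    (a : W2 s →ₗ[K] K) (b : W2 s) : Pv d e (Zp a) (Hp b) = Cp (ab * a b) := by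
  have h : ((5336100 : ℕ) : K) = 1 := by decide
  rw [Pv, hd, he, Zp_pow, Hp_pow, h, one_smul, one_smul, cm_Zp_Dp, cm_Hp_Ep, cm_Zp_Hp]
  congr 1
  rw [LinearMap.smul_apply, map_smul, smul_eq_mul, smul_eq_mul, ab]
  ring

/-! ### the operator of a letter -/

/-- the operator on `W2` -/
def Up (q : ℕ) (X0 Xk : W2 s ≃ₗ[K] W2 s) : W2 s →ₗ[K] W2 s :=
  -((q : K) • (((X0 : W2 s →ₗ[K] W2 s) - LinearMap.id) ∘ₗ ((Xk : W2 s →ₗ[K] W2 s) - LinearMap.id)))

theorem Up_apply (q : ℕ) (X0 Xk : W2 s ≃ₗ[K] W2 s) (v : W2 s) :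
    Up q X0 Xk v = -((q : K) • (X0 (Xk v - v) - (Xk v - v))) := rfl

theorem Zl_Zp {y0 y1 y2 d : Equiv.Perm (VV s)} (k : Bool) {X0 Xk : W2 s ≃ₗ[K] W2 s}
    (h0 : y0 ^ 2669205 = Xp X0) (hk : sl y1 y2 k = Xp Xk) (hd : d ^ 762630 = Dp)
    (a : W2 s →ₗ[K] K) : Zl y0 y1 y2 d k (Zp a) = Zp (a ∘ₗ Up (qq k) X0 Xk) := by
  rw [Zl, zs, uz_Zp hd, Zp_pow, h0, hk, cm_Zp_Xp, cm_Zp_Xp, Zp_add, Zp_add]
  congr 1
  apply LinearMap.ext
  intro v
  simp only [LinearMap.add_apply, LinearMap.sub_apply, LinearMap.neg_apply, LinearMap.comp_apply,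
    LinearMap.smul_apply, LinearEquiv.coe_coe, Up_apply, map_neg, map_smul, map_sub, smul_eq_mul]
  ring

theorem Yl_Hp {y0 y1 y2 e : Equiv.Perm (VV s)} (k : Bool) {X0 Xk : W2 s ≃ₗ[K] W2 s}
    (h0 : y0 ^ 2669205 = Xp X0) (hk : sl y1 y2 k = Xp Xk) (he : e ^ 485310 = Ep)
    (b : W2 s) : Yl y0 y1 y2 e k (Hp b) = Hp (Up (qq k) X0 Xk b) := by
  rw [Yl, ys, uh_Hp he, Hp_pow, h0, hk, yc_Hp_Xp, yc_Hp_Xp, Hp_add, Hp_add]
  congr 1
  rw [Up_apply]
  simp only [map_neg, map_smul, map_sub, smul_neg, smul_sub]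
  abel

theorem exists_X0 {y : Equiv.Perm (VV s)} (h : InS A1 A2 y) : ∃ X : W2 s ≃ₗ[K] W2 s,
    y ^ 2669205 = Xp X ∧ (X = 1 ∨ X = x0X) := by
  rcases pow_x0 h with h | h
  · exact ⟨1, by rw [h, Xp_one], Or.inl rfl⟩
  · exact ⟨x0X, h, Or.inr rfl⟩

theorem exists_Xk {y1 y2 : Equiv.Perm (VV s)} (h1 : InS A1 A2 y1) (h2 : InS A1 A2 y2) (k : Bool) :
    ∃ X : W2 s ≃ₗ[K] W2 s, sl y1 y2 k = Xp X ∧
      (X = 1 ∨ X = if k then x2X A2 else x1X A1) := by
  cases k with
  | false =>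
    rcases pow_x1 h1 with h | h
    · exact ⟨1, by rw [sl, h, Xp_one], Or.inl rfl⟩
    · exact ⟨x1X A1, h, Or.inr rfl⟩
  | true =>
    rcases pow_x2 h2 with h | h
    · exact ⟨1, by rw [sl, h, Xp_one], Or.inl rfl⟩
    · exact ⟨x2X A2, h, Or.inr rfl⟩

theorem Up_one_left (q : ℕ) (Xk : W2 s ≃ₗ[K] W2 s) : Up q 1 Xk = 0 := by
  apply LinearMap.ext
  intro v
  rw [Up_apply]
  simp

theorem Up_one_right (q : ℕ) (X0 : W2 s ≃ₗ[K] W2 s) : Up q X0 1 = 0 := by
  apply LinearMap.ext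
  intro v
  rw [Up_apply]
  simp

/-- composition operator -/
def Op (β : s → s) : (s → K) →ₗ[K] (s → K) := LinearMap.funLeft K K β

theorem Op_apply (β : s → s) (f : s → K) (m : s) : Op β f m = f (β m) := rfl

/-- the operator attached to `A` -/
def TA (A : (s → K) →ₗ[K] (s → K)) : W2 s →ₗ[K] W2 s :=
  (LinearMap.inl K (s → K) (s → K)) ∘ₗ (A ∘ₗ sm)

theorem TA_apply (A : (s → K) →ₗ[K] (s → K)) (v : W2 s) : TA A v = (A (sm v), 0) := rfl

theorem Up_proper (A1 A2 : (s → K) →ₗ[K] (s → K)) (k : Bool) :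
    Up (qq k) x0X (if k then x2X A2 else x1X A1) = TA (if k then A2 else A1) := by
  cases k with
  | false =>
    apply LinearMap.ext
    intro v
    have h : -(((623 : ℕ) : K) * (-2) * 881) = 1 := by decide
    simp only [Up_apply, qq, x0X, x1X, Xi_sub, Bool.false_eq_true, if_false]
    rw [map_smul, smul_smul, smul_smul, ← neg_smul, h, one_smul, e0_apply, eA_apply, TA_apply,
      sm_apply]
  | true =>
    apply LinearMap.ext
    intro v
    have h : -(((902 : ℕ) : K) * (-2) * 196) = 1 := by decide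
    simp only [Up_apply, qq, x0X, x2X, Xi_sub, if_true]
    rw [map_smul, smul_smul, smul_smul, ← neg_smul, h, one_smul, e0_apply, eA_apply, TA_apply,
      sm_apply]


/-! ### the words are compatible with the closed subset -/

theorem Zw_Zp {y0 y1 y2 d : Equiv.Perm (VV s)} {X0 : W2 s ≃ₗ[K] W2 s} {X : Bool → (W2 s ≃ₗ[K] W2 s)}
    (h0 : y0 ^ 2669205 = Xp X0) (hk : ∀ k, sl y1 y2 k = Xp (X k)) (hd : d ^ 762630 = Dp)
    (g : List Bool) (a : W2 s →ₗ[K] K) :
    Zw y0 y1 y2 d g (Zp a) = Zp (g.foldl (fun a k => a ∘ₗ Up (qq k) X0 (X k)) a) := by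
  induction g generalizing a with
  | nil => rfl
  | cons k g ih =>
    rw [Zw_cons, Zl_Zp k h0 (hk k) hd, ih]
    rfl

theorem fold_zero' (U : Bool → (W2 s →ₗ[K] W2 s)) (g : List Bool) :
    g.foldl (fun (a : W2 s →ₗ[K] K) k => a ∘ₗ U k) 0 = 0 := by
  induction g with
  | nil => rfl
  | cons k g ih => rw [List.foldl_cons, LinearMap.zero_comp, ih]

theorem fold_zero (U : Bool → (W2 s →ₗ[K] W2 s)) {k : Bool} (hk : U k = 0) (g : List Bool)
    (hg : k ∈ g) (a : W2 s →ₗ[K] K) : g.foldl (fun a k => a ∘ₗ U k) a = 0 := by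
  induction g generalizing a with
  | nil => simp at hg
  | cons j g ih =>
    rw [List.foldl_cons]
    rcases List.mem_cons.1 hg with rfl | h
    · rw [hk, LinearMap.comp_zero, fold_zero']
    · exact ih h _

theorem TA_comp (A B : (s → K) →ₗ[K] (s → K)) : TA A ∘ₗ TA B = TA (A ∘ₗ B) := by
  apply LinearMap.ext
  intro v
  rw [LinearMap.comp_apply, TA_apply, TA_apply, TA_apply, sm_apply]
  simp

theorem fold_proper (α : Bool → s → s) (g : List Bool) (hg : g ≠ []) (a : W2 s →ₗ[K] K) :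
    g.foldl (fun a k => a ∘ₗ TA (Op (α k))) a = a ∘ₗ TA (Op (actW α g)) := by
  induction g generalizing a with
  | nil => exact absurd rfl hg
  | cons k g ih =>
    rw [List.foldl_cons]
    by_cases h : g = []
    · subst h
      rfl
    · rw [ih h, LinearMap.comp_assoc, TA_comp]
      congr 2

variable (α : Bool → s → s)

/-- the relation words are trivial on the closed subset -/
theorem Pv_rel (g h : List Bool) (hg0 : false ∈ g) (hg1 : true ∈ g) (hh0 : false ∈ h)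
    (hh1 : true ∈ h) (hrel : ∀ m, actW α g m = actW α h m)
    {y0 y1 y2 yd ye z w : Equiv.Perm (VV s)}
    (h0 : InS (Op (α false)) (Op (α true)) y0) (h1 : InS (Op (α false)) (Op (α true)) y1)
    (h2 : InS (Op (α false)) (Op (α true)) y2) (hd : InS (Op (α false)) (Op (α true)) yd)
    (hz : InS (Op (α false)) (Op (α true)) z) :
    Pv yd ye (Zw y0 y1 y2 yd g z) w = Pv yd ye (Zw y0 y1 y2 yd h z) w := by
  rcases hz.cases' with q | ⟨a, rfl⟩ | ⟨b, rfl⟩
  · rw [Zw_of (uz_const q), Zw_of (uz_const q)]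
  · rcases pow_d hd with pd | pd
    · rw [Pv_d pd, Pv_d pd]
    obtain ⟨X0, e0, c0⟩ := exists_X0 h0
    choose X eX cX using fun k => exists_Xk h1 h2 k
    rw [Zw_Zp e0 eX pd, Zw_Zp e0 eX pd]
    congr 2
    have hmem : ∀ k : Bool, k ∈ g ∧ k ∈ h := by
      intro k
      cases k
      · exact ⟨hg0, hh0⟩
      · exact ⟨hg1, hh1⟩
    rcases c0 with rfl | rfl
    · rw [fold_zero (fun k => Up (qq k) 1 (X k)) (Up_one_left _ _) g hg0,
        fold_zero (fun k => Up (qq k) 1 (X k)) (Up_one_left _ _) h hh0]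
    by_cases hX : ∃ k, X k = 1
    · obtain ⟨k, hk⟩ := hX
      have hU : Up (qq k) x0X (X k) = 0 := by rw [hk, Up_one_right]
      rw [fold_zero (fun k => Up (qq k) x0X (X k)) hU g (hmem k).1,
        fold_zero (fun k => Up (qq k) x0X (X k)) hU h (hmem k).2]
    · have hX' : ∀ k, Up (qq k) x0X (X k) = TA (Op (α k)) := by
        intro k
        have h3 := (cX k).resolve_left fun h => hX ⟨k, h⟩
        rw [h3, Up_proper]
        cases k <;> rfl
      simp only [hX']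
      rw [fold_proper α g (by rintro rfl; simp at hg0), fold_proper α h (by rintro rfl; simp at hh0),
        show actW α g = actW α h from funext hrel]
  · rw [Zw_of (uz_Hp hd b), Zw_of (uz_Hp hd b)]

/-- the adjunction words are trivial on the closed subset -/
theorem Pv_adj (k : Bool) {y0 y1 y2 yd ye z w : Equiv.Perm (VV s)}
    (h0 : InS (Op (α false)) (Op (α true)) y0) (h1 : InS (Op (α false)) (Op (α true)) y1)
    (h2 : InS (Op (α false)) (Op (α true)) y2) (hd : InS (Op (α false)) (Op (α true)) yd)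
    (he : InS (Op (α false)) (Op (α true)) ye)
    (hz : InS (Op (α false)) (Op (α true)) z) (hw : InS (Op (α false)) (Op (α true)) w) :
    Pv yd ye (Zl y0 y1 y2 yd k z) w = Pv yd ye z (Yl y0 y1 y2 ye k w) := by
  rcases hz.cases' with q | ⟨a, rfl⟩ | ⟨b, rfl⟩
  · rw [Zl, zs_of (uz_const q), mul_one, Pv_z q, Pv_z q]
  · rcases pow_d hd with pd | pd
    · rw [Pv_d pd, Pv_d pd]
    rcases pow_e he with pe | pe
    · rw [Pv_e pe, Pv_e pe]
    obtain ⟨X0, e0, -⟩ := exists_X0 h0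
    obtain ⟨X, eX, -⟩ := exists_Xk h1 h2 k
    rcases hw.cases' with q | ⟨a', rfl⟩ | ⟨b, rfl⟩
    · rw [Yl, ys_of (uh_const q), mul_one, Pv_h q, Pv_h q]
    · rw [Yl, ys_of (uh_Zp he a'), mul_one, Pv_Zp he, Pv_Zp he]
    · rw [Zl_Zp k e0 eX pd, Yl_Hp k e0 eX pe, Pv_ZH pd pe, Pv_ZH pd pe]
      rfl
  · rw [Zl, zs_of (uz_Hp hd b), mul_one, Pv_Hp hd, Pv_Hp hd]

/-- a factor which does not leave the type of `w` -/
def Tame (w t : Equiv.Perm (VV s)) : Prop :=
  (w ^ 2310 = 1 → t = 1) ∧ (∀ a, w = Zp a → ∃ a', t = Zp a') ∧ (∀ b, w = Hp b → ∃ b', t = Hp b')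

theorem tame_one (w : Equiv.Perm (VV s)) : Tame w 1 :=
  ⟨fun _ => rfl, fun _ _ => ⟨0, Zp_zero.symm⟩, fun _ _ => ⟨0, Hp_zero.symm⟩⟩

theorem tame_mul {w t u : Equiv.Perm (VV s)} (h1 : Tame w t) (h2 : Tame w u) : Tame w (t * u) := by
  refine ⟨fun h => by rw [h1.1 h, h2.1 h, mul_one], fun a h => ?_, fun b h => ?_⟩
  · obtain ⟨a1, e1⟩ := h1.2.1 a h
    obtain ⟨a2, e2⟩ := h2.2.1 a h
    exact ⟨_, by rw [e1, e2, Zp_add]⟩
  · obtain ⟨a1, e1⟩ := h1.2.2 b h
    obtain ⟨a2, e2⟩ := h2.2.2 b h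
    exact ⟨_, by rw [e1, e2, Hp_add]⟩

theorem tame_inS {A1 A2 : (s → K) →ₗ[K] (s → K)} {w t : Equiv.Perm (VV s)} (hw : InS A1 A2 w)
    (h : Tame w t) : InS A1 A2 (w * t) := by
  rcases hw.cases' with q | ⟨a, rfl⟩ | ⟨b, rfl⟩
  · rw [h.1 q, mul_one]
    exact hw
  · obtain ⟨a', e⟩ := h.2.1 a rfl
    rw [e, Zp_add]
    exact InS.Z _
  · obtain ⟨a', e⟩ := h.2.2 b rfl
    rw [e, Hp_add]
    exact InS.H _

theorem tame_zs {A1 A2 : (s → K) →ₗ[K] (s → K)} {y0 y1 y2 d w : Equiv.Perm (VV s)} (k : Bool)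
    (h0 : InS A1 A2 y0) (h1 : InS A1 A2 y1) (h2 : InS A1 A2 y2) (hd : InS A1 A2 d) :
    Tame w (zs y0 y1 y2 d k w) := by
  refine ⟨fun h => zs_of (uz_const h) k, ?_, ?_⟩
  · rintro a rfl
    rcases pow_d hd with pd | pd
    · exact ⟨0, by rw [zs_of (by rw [uz, pd, cm_one_right]), Zp_zero]⟩
    obtain ⟨X0, e0, -⟩ := exists_X0 h0
    obtain ⟨X, eX, -⟩ := exists_Xk h1 h2 k
    rw [zs, uz_Zp pd, Zp_pow, e0, eX, cm_Zp_Xp, cm_Zp_Xp, Zp_add]
    exact ⟨_, rfl⟩
  · rintro b rfl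
    exact ⟨0, by rw [zs_of (uz_Hp hd b), Hp_zero]⟩

theorem tame_ys {A1 A2 : (s → K) →ₗ[K] (s → K)} {y0 y1 y2 e w : Equiv.Perm (VV s)} (k : Bool)
    (h0 : InS A1 A2 y0) (h1 : InS A1 A2 y1) (h2 : InS A1 A2 y2) (he : InS A1 A2 e) :
    Tame w (ys y0 y1 y2 e k w) := by
  refine ⟨fun h => ys_of (uh_const h) k, ?_, ?_⟩
  · rintro a rfl
    exact ⟨0, by rw [ys_of (uh_Zp he a), Zp_zero]⟩
  · rintro b rfl
    rcases pow_e he with pe | pe
    · exact ⟨0, by rw [ys_of (by rw [uh, pe, cm_one_right]), Hp_zero]⟩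
    obtain ⟨X0, e0, -⟩ := exists_X0 h0
    obtain ⟨X, eX, -⟩ := exists_Xk h1 h2 k
    rw [ys, uh_Hp pe, Hp_pow, e0, eX, yc_Hp_Xp, yc_Hp_Xp, Hp_add]
    exact ⟨_, rfl⟩

/-- the target word is outside the closed subset -/
theorem target_not_inS (g h : List Bool) (hg : g ≠ []) (hh : h ≠ []) (m : s)
    (hne : actW α g m ≠ actW α h m) :
    ∃ (a : W2 s →ₗ[K] K) (b : W2 s),
      ¬ InS (Op (α false)) (Op (α true))
        (x0m * Pv Dp Ep (Zw x0m (x1m (Op (α false))) (x2m (Op (α true))) Dp g (Zp a)) (Hp b)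
          * (Pv Dp Ep (Zw x0m (x1m (Op (α false))) (x2m (Op (α true))) Dp h (Zp a)) (Hp b))⁻¹) := by
  classical
  have pd : (Dp : Equiv.Perm (VV s)) ^ 762630 = Dp := pow_self_of Dp_ord 108947
  have pe : (Ep : Equiv.Perm (VV s)) ^ 485310 = Ep := pow_self_of Ep_ord 44119
  have p0 : (x0m : Equiv.Perm (VV s)) ^ 2669205 = Xp x0X := pow_self_of x0m_ord 1334602
  have pk : ∀ k, sl (x1m (Op (α false))) (x2m (Op (α true)) : Equiv.Perm (VV s)) k =
      Xp (if k then x2X (Op (α true)) else x1X (Op (α false))) := by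
    intro k
    cases k
    · exact pow_self_of (x1m_ord _) 1186313
    · exact pow_self_of (x2m_ord _) 640609
  have key : ∀ g : List Bool, g ≠ [] → ∀ a : W2 s →ₗ[K] K,
      Zw x0m (x1m (Op (α false))) (x2m (Op (α true))) Dp g (Zp a) =
        Zp (a ∘ₗ TA (Op (actW α g))) := by
    intro g hg a
    rw [Zw_Zp p0 pk pd, ← fold_proper α g hg]
    congr 2
    funext a k
    rw [Up_proper]
    cases k <;> rfl
  refine ⟨(LinearMap.proj m).comp (LinearMap.fst K (s → K) (s → K)),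
    (Pi.single (actW α g m) 1, 0), ?_⟩
  intro hS
  have := hS.sep
  rw [key g hg, key h hh, Pv_ZH pd pe, Pv_ZH pd pe] at this
  simp only [LinearMap.comp_apply, TA_apply, LinearMap.fst_apply, LinearMap.proj_apply,
    Op_apply, sm_apply, add_zero, Pi.single_eq_same, Pi.single_eq_of_ne hne.symm,
    Equiv.Perm.mul_apply, Equiv.Perm.inv_def, Cp_symm_apply, Cp_apply] at this
  simp [x0m] at this
  revert this
  unfold ab
  decide

end model

end Pool.Agent.H11.OW
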