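import Pool.Agent.H11.OW.Model
import Pool.Graph.R_seed8.Y669.GW.Transfer
import Pool.Graph.R_seed8.Y669.GW.Law

/-!
# One single word
-/

set_option autoImplicit false

namespace Pool.Agent.H11.OW

open Pool.Agent.Helper583 (Word wInv wSubst wEval IdenticallyEqual wEval_nil wEval_append wEval_cons
  wInv_cons wEval_wInv wEval_wSubst wEval_congr wv wEval_wv wPow wEval_wPow wCm wYc wEval_wCm wEval_wYc
  ClosedFor RStep actW cm yc cm_one_left cm_one_right)

universe u

/-! ### words -/

def wSl : Bool → Word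
  | false => wPow (wv 1) 3558940
  | true => wPow (wv 2) 3203046

def wUz (z : Word) : Word := wCm (wPow z 2802030) (wPow (wv 3) 762630)
def wUh (h : Word) : Word := wCm (wPow h 1792560) (wPow (wv 6) 485310)
def wZs (k : Bool) (z : Word) : Word :=
  wUz z ++ wCm (wCm (wPow (wUz z) (qq k)) (wPow (wv 0) 2669205)) (wSl k)
def wYs (k : Bool) (h : Word) : Word :=
  wUh h ++ wYc (wYc (wPow (wUh h) (qq k)) (wSl k)) (wPow (wv 0) 2669205)
def wZl (k : Bool) (z : Word) : Word := z ++ wZs k z
def wYl (k : Bool) (h : Word) : Word := h ++ wYs k h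
def wPv (z h : Word) : Word :=
  wCm (wCm (wPow z 5336100) (wPow (wv 3) 762630)) (wCm (wPow h 5336100) (wPow (wv 6) 485310))
def wZw (g : List Bool) (z : Word) : Word := g.foldl (fun z k => wZl k z) z
def wYw (g : List Bool) (z : Word) : Word := g.foldl (fun z k => wYl k z) z

section eval
variable {G : Type u} [Group G] (f : ℕ → G)

theorem wEval_wSl (k : Bool) : wEval f (wSl k) = sl (f 1) (f 2) k := by
  cases k <;> simp only [wSl, sl, wEval_wPow, wEval_wv]

theorem wEval_wUz (z : Word) : wEval f (wUz z) = uz (f 3) (wEval f z) := by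
  simp only [wUz, uz, wEval_wCm, wEval_wPow, wEval_wv]

theorem wEval_wUh (z : Word) : wEval f (wUh z) = uh (f 6) (wEval f z) := by
  simp only [wUh, uh, wEval_wCm, wEval_wPow, wEval_wv]

theorem wEval_wZs (k : Bool) (z : Word) :
    wEval f (wZs k z) = zs (f 0) (f 1) (f 2) (f 3) k (wEval f z) := by
  simp only [wZs, zs, wEval_append, wEval_wCm, wEval_wPow, wEval_wv, wEval_wUz, wEval_wSl]

theorem wEval_wYs (k : Bool) (z : Word) :
    wEval f (wYs k z) = ys (f 0) (f 1) (f 2) (f 6) k (wEval f z) := by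
  simp only [wYs, ys, wEval_append, wEval_wYc, wEval_wPow, wEval_wv, wEval_wUh, wEval_wSl]

theorem wEval_wZl (k : Bool) (z : Word) :
    wEval f (wZl k z) = Zl (f 0) (f 1) (f 2) (f 3) k (wEval f z) := by
  rw [wZl, wEval_append, wEval_wZs, Zl]

theorem wEval_wYl (k : Bool) (z : Word) :
    wEval f (wYl k z) = Yl (f 0) (f 1) (f 2) (f 6) k (wEval f z) := by
  rw [wYl, wEval_append, wEval_wYs, Yl]

theorem wEval_wPv (z h : Word) :
    wEval f (wPv z h) = Pv (f 3) (f 6) (wEval f z) (wEval f h) := by
  simp only [wPv, Pv, wEval_wCm, wEval_wPow, wEval_wv]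

theorem wZw_cons (k : Bool) (g : List Bool) (z : Word) : wZw (k :: g) z = wZw g (wZl k z) := rfl
theorem wYw_cons (k : Bool) (g : List Bool) (z : Word) : wYw (k :: g) z = wYw g (wYl k z) := rfl
theorem wZw_append (g h : List Bool) (z : Word) : wZw (g ++ h) z = wZw h (wZw g z) := by
  simp [wZw, List.foldl_append]
theorem wYw_append (g h : List Bool) (z : Word) : wYw (g ++ h) z = wYw h (wYw g z) := by
  simp [wYw, List.foldl_append]

theorem wEval_wZw (g : List Bool) (z : Word) :
    wEval f (wZw g z) = Zw (f 0) (f 1) (f 2) (f 3) g (wEval f z) := by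
  induction g generalizing z with
  | nil => rfl
  | cons k g ih => rw [wZw_cons, ih, wEval_wZl, Zw_cons]

end eval

/-- quotient of two vertex words -/
def dW (z h z' h' : Word) : Word := wPv z h ++ wInv (wPv z' h')

theorem wEval_dW {G : Type u} [Group G] (f : ℕ → G) (z h z' h' : Word) :
    wEval f (dW z h z' h') = Pv (f 3) (f 6) (wEval f z) (wEval f h) *
      (Pv (f 3) (f 6) (wEval f z') (wEval f h'))⁻¹ := by
  rw [dW, wEval_append, wEval_wInv, wEval_wPv, wEval_wPv]

/-- the blocks that do not depend on the relations -/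
def baseBlocks : List Word :=
  [wZs false (wv 7), wZs true (wv 7), wYs false (wv 7), wYs true (wv 7),
    dW (wZl false (wv 4)) (wv 5) (wv 4) (wYl false (wv 5)),
    dW (wZl true (wv 4)) (wv 5) (wv 4) (wYl true (wv 5)),
    dW (wv 4) (wYl false (wv 5)) (wZl false (wv 4)) (wv 5),
    dW (wv 4) (wYl true (wv 5)) (wZl true (wv 4)) (wv 5)]

/-- the blocks attached to the relations -/
def relBlocks (R : List (List Bool × List Bool)) : List Word :=
  R.flatMap fun p => [dW (wZw p.1 (wv 4)) (wv 5) (wZw p.2 (wv 4)) (wv 5),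
    dW (wZw p.2 (wv 4)) (wv 5) (wZw p.1 (wv 4)) (wv 5)]

def blocks (R : List (List Bool × List Bool)) : List Word := baseBlocks ++ relBlocks R

/-- the target word -/
def target (g h : List Bool) : Word :=
  wv 0 ++ dW (wZw g (wv 4)) (wv 5) (wZw h (wv 4)) (wv 5)

/-! ### the single word -/

/-- the variables of the block `j`; the variable `7` of all blocks is the variable `0` -/
def ren (j i : ℕ) : ℕ := if i = 7 then 0 else Nat.pair j i + 1

def wRen (j : ℕ) (l : Word) : Word := l.map fun p => (ren j p.1, p.2)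

def blk : ℕ → List Word → Word
  | _, [] => []
  | j, l :: L => wRen j l ++ blk (j + 1) L

/-- **the single word** -/
def oneWord (R : List (List Bool × List Bool)) : Word := wv 0 ++ blk 0 (blocks R)

theorem wEval_wRen {G : Type u} [Group G] (F : ℕ → G) (j : ℕ) (l : Word) :
    wEval F (wRen j l) = wEval (fun i => F (ren j i)) l := by
  unfold wEval wRen
  rw [List.map_map]
  rfl

/-- the substitution which selects the block `J` -/
def sel {X : Type u} (J : ℕ) (g : X) (T : ℕ → X) : ℕ → X := fun v =>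
  if v = 0 then g else if (Nat.unpair (v - 1)).1 = J then T (Nat.unpair (v - 1)).2 else g

theorem sel_same {X : Type u} (J : ℕ) (g : X) (T : ℕ → X) (i : ℕ) :
    sel J g T (ren J i) = if i = 7 then g else T i := by
  unfold sel ren
  by_cases h : i = 7
  · simp [h]
  · simp [h]

theorem sel_ne {X : Type u} {J j : ℕ} (hj : j ≠ J) (g : X) (T : ℕ → X) (i : ℕ) :
    sel J g T (ren j i) = g := by
  unfold sel ren
  by_cases h : i = 7
  · simp [h]
  · simp [h, hj]

/-- the block is trivial if all variables are equal -/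
def Triv (l : Word) : Prop := ∀ (G : Type u) [Group G] (g : G), wEval (fun _ => g) l = 1

theorem blk_off {G : Type u} [Group G] (J : ℕ) (g : G) (T : ℕ → G) (L : List Word) (j : ℕ)
    (hL : ∀ l ∈ L, Triv.{u} l) (hj : J < j) : wEval (sel J g T) (blk j L) = 1 := by
  induction L generalizing j with
  | nil => rfl
  | cons l L ih =>
    have h1 : (fun i => sel J g T (ren j i)) = fun _ => g :=
      funext fun i => sel_ne (by omega) g T i
    rw [blk, wEval_append, wEval_wRen, h1, hL l List.mem_cons_self G g, one_mul,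
      ih (j + 1) (fun l h => hL l (List.mem_cons_of_mem _ h)) (by omega)]

theorem blk_on {G : Type u} [Group G] (g : G) (T : ℕ → G) (L : List Word) (j i : ℕ) (l : Word)
    (hL : ∀ l ∈ L, Triv.{u} l) (hi : L[i]? = some l) :
    wEval (sel (j + i) g T) (blk j L) = wEval (fun i => if i = 7 then g else T i) l := by
  induction L generalizing j i with
  | nil => simp at hi
  | cons l' L ih =>
    rw [blk, wEval_append, wEval_wRen]
    cases i with
    | zero =>
      have h2 : l' = l := by simpa using hi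
      rw [blk_off (j + 0) g T L (j + 1) (fun l h => hL l (List.mem_cons_of_mem _ h)) (by omega),
        mul_one, h2]
      congr 1
      funext i
      exact sel_same _ g T i
    | succ i =>
      have h1 : (fun i' => sel (j + (i + 1)) g T (ren j i')) = fun _ => g :=
        funext fun i' => sel_ne (by omega) g T i'
      rw [h1, hL l' List.mem_cons_self G g, one_mul]
      have h2 := ih (j + 1) i (fun l h => hL l (List.mem_cons_of_mem _ h)) (by simpa using hi)
      rwa [show j + 1 + i = j + (i + 1) by ring] at h2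

theorem triv_blocks (R : List (List Bool × List Bool)) (l : Word) (hl : l ∈ blocks R) :
    Triv.{u} l := by
  intro G _ g
  have hd : ∀ z h z' h', wEval (fun _ => g) z = g → wEval (fun _ => g) z' = g →
      wEval (fun _ => g) (dW z h z' h') = 1 := by
    intro z h z' h' h1 h2
    rw [wEval_dW, h1, h2, Pv_self, Pv_self, inv_one, mul_one]
  have hv : ∀ i, wEval (fun _ => g) (wv i) = g := fun i => wEval_wv _ i
  have hZ : ∀ k i, wEval (fun _ => g) (wZl k (wv i)) = g := fun k i => by
    rw [wEval_wZl, hv, Zl_self]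
  have hW : ∀ w i, wEval (fun _ => g) (wZw w (wv i)) = g := fun w i => by
    rw [wEval_wZw, hv, Zw_self]
  rcases List.mem_append.1 hl with h | h
  · simp only [baseBlocks, List.mem_cons, List.not_mem_nil, or_false] at h
    rcases h with h | h | h | h | h | h | h | h
    · rw [h, wEval_wZs, hv, zs_self]
    · rw [h, wEval_wZs, hv, zs_self]
    · rw [h, wEval_wYs, hv, ys_self]
    · rw [h, wEval_wYs, hv, ys_self]
    · rw [h]; exact hd _ _ _ _ (hZ _ _) (hv _)
    · rw [h]; exact hd _ _ _ _ (hZ _ _) (hv _)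
    · rw [h]; exact hd _ _ _ _ (hv _) (hZ _ _)
    · rw [h]; exact hd _ _ _ _ (hv _) (hZ _ _)
  · rw [relBlocks, List.mem_flatMap] at h
    obtain ⟨p, _, h⟩ := h
    simp only [List.mem_cons, List.not_mem_nil, or_false] at h
    rcases h with h | h
    · rw [h]; exact hd _ _ _ _ (hW _ _) (hW _ _)
    · rw [h]; exact hd _ _ _ _ (hW _ _) (hW _ _)

/-! ### upper bound -/

section upper
variable {G : Type u} [Group G] {R : List (List Bool × List Bool)} {E : Word → Prop}

/-- every block can be applied -/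
theorem block_app (hE : ClosedFor G [oneWord R] E) {l : Word} (hl : l ∈ blocks R) {w : Word}
    (hw : E w) (τ : ℕ → Word) (hτ : ∀ i, E (τ i)) (W : Word)
    (hW : ∀ f : ℕ → G, wEval f w *
      wEval (fun i => if i = 7 then wEval f w else wEval f (τ i)) l = wEval f W) : E W := by
  obtain ⟨i, hi⟩ := List.mem_iff_getElem?.1 hl
  have h1 : ∀ v, E (sel i w τ v) := by
    intro v
    unfold sel
    split_ifs
    · exact hw
    · exact hτ _
    · exact hw
  refine hE.congr _ _ (hE.app (oneWord R) (List.mem_singleton.2 rfl) (sel i w τ) h1) fun f => ?_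
  rw [wEval_wSubst, ← hW f]
  have h2 : (fun v => wEval f (sel i w τ v)) = sel i (wEval f w) (fun i => wEval f (τ i)) := by
    funext v
    unfold sel
    split_ifs <;> rfl
  rw [h2, oneWord, wEval_append, wEval_wv]
  have h3 := blk_on (wEval f w) (fun i => wEval f (τ i)) (blocks R) 0 i l (triv_blocks R) hi
  rw [zero_add] at h3
  rw [h3]
  rfl

/-- substitution of two variables -/
def sub2 (z h : Word) : ℕ → Word := fun i => if i = 4 then z else if i = 5 then h else wv i

theorem sub2_mem (hE : ClosedFor G [oneWord R] E) {z h : Word} (hz : E z) (hh : E h) (i : ℕ) :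
    E (sub2 z h i) := by
  unfold sub2
  split_ifs
  · exact hz
  · exact hh
  · exact hE.var i

theorem base_mem {B : Word} (h : B ∈ baseBlocks) : B ∈ blocks R := List.mem_append_left _ h

theorem E_Zl (hE : ClosedFor G [oneWord R] E) (k : Bool) {z : Word} (hz : E z) :
    E (wZl k z) := by
  have hB : wZs k (wv 7) ∈ blocks R := base_mem (by cases k <;> simp [baseBlocks])
  refine block_app hE hB hz wv hE.var _ fun f => ?_
  rw [wEval_wZs, wEval_wZl, Zl]
  simp

theorem E_Yl (hE : ClosedFor G [oneWord R] E) (k : Bool) {h : Word} (hh : E h) :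
    E (wYl k h) := by
  have hB : wYs k (wv 7) ∈ blocks R := base_mem (by cases k <;> simp [baseBlocks])
  refine block_app hE hB hh wv hE.var _ fun f => ?_
  rw [wEval_wYs, wEval_wYl, Yl]
  simp

theorem E_Zw (hE : ClosedFor G [oneWord R] E) (g : List Bool) {z : Word} (hz : E z) :
    E (wZw g z) := by
  induction g generalizing z with
  | nil => exact hz
  | cons k g ih => exact ih (E_Zl hE k hz)

theorem E_Yw (hE : ClosedFor G [oneWord R] E) (g : List Bool) {z : Word} (hz : E z) :
    E (wYw g z) := by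
  induction g generalizing z with
  | nil => exact hz
  | cons k g ih => exact ih (E_Yl hE k hz)

/-- equivalence of vertices -/
def VQ (E : Word → Prop) (z h z' h' : Word) : Prop :=
  ∀ w, E w → E (w ++ dW z h z' h')

theorem VQ.refl (hE : ClosedFor G [oneWord R] E) (z h : Word) : VQ E z h z h := fun w hw =>
  hE.congr _ _ hw (fun f => by rw [wEval_append, wEval_dW, mul_inv_cancel, mul_one])

theorem VQ.trans (hE : ClosedFor G [oneWord R] E) {z h z' h' z'' h'' : Word}
    (h1 : VQ E z h z' h') (h2 : VQ E z' h' z'' h'') : VQ E z h z'' h'' := fun w hw =>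
  hE.congr _ _ (h2 _ (h1 w hw)) (fun f => by
    rw [wEval_append, wEval_append, wEval_append, wEval_dW, wEval_dW, wEval_dW]
    group)

theorem VQ_of_block (hE : ClosedFor G [oneWord R] E) {a b a' b' : Word}
    (hB : dW a b a' b' ∈ blocks R) {z h : Word} (hz : E z) (hh : E h) {za ha za' ha' : Word}
    (e1 : ∀ (g : G) (f : ℕ → G), wEval (fun i => if i = 7 then g else wEval f (sub2 z h i)) a =
      wEval f za)
    (e2 : ∀ (g : G) (f : ℕ → G), wEval (fun i => if i = 7 then g else wEval f (sub2 z h i)) b =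
      wEval f ha)
    (e3 : ∀ (g : G) (f : ℕ → G), wEval (fun i => if i = 7 then g else wEval f (sub2 z h i)) a' =
      wEval f za')
    (e4 : ∀ (g : G) (f : ℕ → G), wEval (fun i => if i = 7 then g else wEval f (sub2 z h i)) b' =
      wEval f ha') : VQ E za ha za' ha' := fun w hw => by
  refine block_app hE hB hw (sub2 z h) (sub2_mem hE hz hh) _ fun f => ?_
  rw [wEval_append, wEval_dW, wEval_dW, e1, e2, e3, e4]
  simp [sub2]

theorem VQ_adj (hE : ClosedFor G [oneWord R] E) (k : Bool) {z h : Word} (hz : E z) (hh : E h) :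
    VQ E (wZl k z) h z (wYl k h) := by
  have hB : dW (wZl k (wv 4)) (wv 5) (wv 4) (wYl k (wv 5)) ∈ blocks R :=
    base_mem (by cases k <;> simp [baseBlocks])
  refine VQ_of_block hE hB hz hh ?_ ?_ ?_ ?_ <;> intro g f <;>
    simp [wEval_wZl, wEval_wYl, sub2]

theorem VQ_adj' (hE : ClosedFor G [oneWord R] E) (k : Bool) {z h : Word} (hz : E z) (hh : E h) :
    VQ E z (wYl k h) (wZl k z) h := by
  have hB : dW (wv 4) (wYl k (wv 5)) (wZl k (wv 4)) (wv 5) ∈ blocks R :=
    base_mem (by cases k <;> simp [baseBlocks])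
  refine VQ_of_block hE hB hz hh ?_ ?_ ?_ ?_ <;> intro g f <;>
    simp [wEval_wZl, wEval_wYl, sub2]

theorem VQ_rel (hE : ClosedFor G [oneWord R] E) {g g' : List Bool}
    (hR : (g, g') ∈ R ∨ (g', g) ∈ R) {z h : Word} (hz : E z) (hh : E h) :
    VQ E (wZw g z) h (wZw g' z) h := by
  have hB : dW (wZw g (wv 4)) (wv 5) (wZw g' (wv 4)) (wv 5) ∈ blocks R := by
    refine List.mem_append_right _ ?_
    rw [relBlocks, List.mem_flatMap]
    rcases hR with h | h
    · exact ⟨_, h, by simp⟩
    · exact ⟨_, h, by simp⟩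
  refine VQ_of_block hE hB hz hh ?_ ?_ ?_ ?_ <;> intro g f <;>
    simp [wEval_wZw, sub2]

theorem VQ_move (hE : ClosedFor G [oneWord R] E) (v : List Bool) {z h : Word} (hz : E z)
    (hh : E h) : VQ E (wZw v z) h z (wYw v.reverse h) ∧ VQ E z (wYw v.reverse h) (wZw v z) h := by
  induction v generalizing z with
  | nil => exact ⟨VQ.refl hE _ _, VQ.refl hE _ _⟩
  | cons k v ih =>
    have h1 := ih (E_Zl hE k hz)
    have e : wYw (k :: v).reverse h = wYl k (wYw v.reverse h) := by
      rw [List.reverse_cons, wYw_append]; rfl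
    rw [e, wZw_cons]
    have hh' := E_Yw hE v.reverse hh
    exact ⟨VQ.trans hE h1.1 (VQ_adj hE k hz hh'), VQ.trans hE (VQ_adj' hE k hz hh') h1.2⟩

theorem VQ_step (hE : ClosedFor G [oneWord R] E) {a b : List Bool}
    (h : RStep R a b ∨ RStep R b a) : VQ E (wZw a (wv 4)) (wv 5) (wZw b (wv 4)) (wv 5) := by
  have key : ∀ u v g g' : List Bool, ((g, g') ∈ R ∨ (g', g) ∈ R) →
      VQ E (wZw (u ++ g ++ v) (wv 4)) (wv 5) (wZw (u ++ g' ++ v) (wv 4)) (wv 5) := by
    intro u v g g' hR
    have hu := E_Zw hE u (hE.var 4)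
    rw [wZw_append (u ++ g) v, wZw_append (u ++ g') v, wZw_append u g, wZw_append u g']
    exact VQ.trans hE (VQ_move hE v (E_Zw hE g hu) (hE.var 5)).1
      (VQ.trans hE (VQ_rel hE hR hu (E_Yw hE _ (hE.var 5)))
        (VQ_move hE v (E_Zw hE g' hu) (hE.var 5)).2)
  rcases h with ⟨u, v, g, g', hR⟩ | ⟨u, v, g, g', hR⟩
  · exact key u v g g' (Or.inl hR)
  · exact key u v g' g (Or.inr hR)

theorem VQ_gen (hE : ClosedFor G [oneWord R] E) {a b : List Bool}
    (h : Relation.EqvGen (RStep R) a b) :
    VQ E (wZw a (wv 4)) (wv 5) (wZw b (wv 4)) (wv 5) ∧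
      VQ E (wZw b (wv 4)) (wv 5) (wZw a (wv 4)) (wv 5) := by
  induction h with
  | rel a b h => exact ⟨VQ_step hE (Or.inl h), VQ_step hE (Or.inr h)⟩
  | refl a => exact ⟨VQ.refl hE _ _, VQ.refl hE _ _⟩
  | symm a b _ ih => exact ⟨ih.2, ih.1⟩
  | trans a b c _ _ ih1 ih2 => exact ⟨VQ.trans hE ih1.1 ih2.1, VQ.trans hE ih2.2 ih1.2⟩

/-- Upper bound: equivalent words give an expressible target, on every group. -/
theorem target_mem (hE : ClosedFor G [oneWord R] E) {a b : List Bool}
    (h : Relation.EqvGen (RStep R) a b) : E (target a b) :=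
  (VQ_gen hE h).1 _ (hE.var 0)

end upper

/-! ### lower bound -/

section lower
variable {s : Type u} (α : Bool → s → s)

/-- words that preserve the closed subset -/
def Good (W : Word) : Prop :=
  ∀ f : ℕ → Equiv.Perm (VV s), (∀ i, InS (Op (α false)) (Op (α true)) (f i)) →
    InS (Op (α false)) (Op (α true)) (wEval f W)

theorem Good.var (i : ℕ) : Good α (wv i) := fun f hf => by rw [wEval_wv]; exact hf i

theorem Good.subst {B : Word} (hB : Good α B) (σ : ℕ → Word) (h : ∀ p ∈ B, Good α (σ p.1)) :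
    Good α (wSubst σ B) := fun f hf => by
  classical
  rw [wEval_wSubst]
  have := hB (fun i => if ∃ p ∈ B, p.1 = i then wEval f (σ i) else 1) (fun i => by
    split_ifs with hi
    · obtain ⟨p, hp, rfl⟩ := hi
      exact h p hp f hf
    · exact InS.one)
  rwa [wEval_congr (g := fun i => wEval f (σ i))] at this
  intro p hp
  rw [if_pos ⟨p, hp, rfl⟩]

theorem Good.congr {W W' : Word} (hW : Good α W)
    (h : IdenticallyEqual (Equiv.Perm (VV s)) W W') : Good α W' := fun f hf => by
  rw [← h f]; exact hW f hf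

theorem tame_blocks (R : List (List Bool × List Bool))
    (hR : ∀ p ∈ R, (false ∈ p.1 ∧ true ∈ p.1 ∧ false ∈ p.2 ∧ true ∈ p.2) ∧
      ∀ m, actW α p.1 m = actW α p.2 m) (l : Word) (hl : l ∈ blocks R)
    (f : ℕ → Equiv.Perm (VV s)) (hf : ∀ i, InS (Op (α false)) (Op (α true)) (f i)) :
    Tame (f 7) (wEval f l) := by
  have hadj : ∀ k, wEval f (wPv (wZl k (wv 4)) (wv 5)) = wEval f (wPv (wv 4) (wYl k (wv 5))) := by
    intro k
    simp only [wEval_wPv, wEval_wZl, wEval_wYl, wEval_wv]
    exact Pv_adj α k (hf 0) (hf 1) (hf 2) (hf 3) (hf 6) (hf 4) (hf 5)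
  have hd : ∀ z h z' h', wEval f (wPv z h) = wEval f (wPv z' h') →
      Tame (f 7) (wEval f (dW z h z' h')) := by
    intro z h z' h' e
    rw [dW, wEval_append, wEval_wInv, e, mul_inv_cancel]
    exact tame_one _
  rcases List.mem_append.1 hl with h | h
  · simp only [baseBlocks, List.mem_cons, List.not_mem_nil, or_false] at h
    rcases h with h | h | h | h | h | h | h | h
    · rw [h, wEval_wZs, wEval_wv]; exact tame_zs _ (hf 0) (hf 1) (hf 2) (hf 3)
    · rw [h, wEval_wZs, wEval_wv]; exact tame_zs _ (hf 0) (hf 1) (hf 2) (hf 3)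
    · rw [h, wEval_wYs, wEval_wv]; exact tame_ys _ (hf 0) (hf 1) (hf 2) (hf 6)
    · rw [h, wEval_wYs, wEval_wv]; exact tame_ys _ (hf 0) (hf 1) (hf 2) (hf 6)
    · rw [h]; exact hd _ _ _ _ (hadj false)
    · rw [h]; exact hd _ _ _ _ (hadj true)
    · rw [h]; exact hd _ _ _ _ (hadj false).symm
    · rw [h]; exact hd _ _ _ _ (hadj true).symm
  · rw [relBlocks, List.mem_flatMap] at h
    obtain ⟨⟨g, g'⟩, hp, h⟩ := h
    obtain ⟨⟨c0, c1, c2, c3⟩, hact⟩ := hR _ hp
    have hrel : wEval f (wPv (wZw g (wv 4)) (wv 5)) = wEval f (wPv (wZw g' (wv 4)) (wv 5)) := by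
      simp only [wEval_wPv, wEval_wZw, wEval_wv]
      exact Pv_rel α g g' c0 c1 c2 c3 hact (hf 0) (hf 1) (hf 2) (hf 3) (hf 4)
    simp only [List.mem_cons, List.not_mem_nil, or_false] at h
    rcases h with h | h
    · rw [h]; exact hd _ _ _ _ hrel
    · rw [h]; exact hd _ _ _ _ hrel.symm

theorem tame_blk (L : List Word) (f : ℕ → Equiv.Perm (VV s))
    (hf : ∀ i, InS (Op (α false)) (Op (α true)) (f i))
    (hL : ∀ l ∈ L, ∀ f : ℕ → Equiv.Perm (VV s), (∀ i, InS (Op (α false)) (Op (α true)) (f i)) →
      Tame (f 7) (wEval f l)) (j : ℕ) : Tame (f 0) (wEval f (blk j L)) := by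
  induction L generalizing j with
  | nil => exact tame_one _
  | cons l L ih =>
    rw [blk, wEval_append, wEval_wRen]
    refine tame_mul ?_ (ih (fun l h => hL l (List.mem_cons_of_mem _ h)) _)
    exact hL l List.mem_cons_self (fun i => f (ren j i)) fun i => hf _

theorem good_one (R : List (List Bool × List Bool))
    (hR : ∀ p ∈ R, (false ∈ p.1 ∧ true ∈ p.1 ∧ false ∈ p.2 ∧ true ∈ p.2) ∧
      ∀ m, actW α p.1 m = actW α p.2 m) : Good α (oneWord R) := fun f hf => by
  rw [oneWord, wEval_append, wEval_wv]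
  exact tame_inS (hf 0) (tame_blk α _ f hf (fun l hl f hf => tame_blocks α R hR l hl f hf) 0)

/-- Lower bound: if an action separates the two words, the target is not good. -/
theorem target_not_good {a b : List Bool} (ha : a ≠ []) (hb : b ≠ []) (m : s)
    (hne : actW α a m ≠ actW α b m) : ¬ Good α (target a b) := fun hG => by
  obtain ⟨c, e, h⟩ := target_not_inS α a b ha hb m hne
  apply h
  have := hG (fun i => if i = 0 then x0m else if i = 1 then x1m (Op (α false))
      else if i = 2 then x2m (Op (α true)) else if i = 3 then Dp else if i = 4 then Zp c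
      else if i = 5 then Hp e else Ep) (fun i => by
    split_ifs
    · exact InS.x0
    · exact InS.x1
    · exact InS.x2
    · exact InS.d
    · exact InS.Z c
    · exact InS.H e
    · exact InS.e)
  simp only [target, wEval_append, wEval_dW, wEval_wZw, wEval_wv] at this
  simpa [mul_assoc] using this

end lower

/-! ### computability of the target -/

section comp

open Pool.Agent.Helper583 (prim_append prim_wInv prim_wPow prim_wCm inpW prim_inpW)

variable {β : Type*} [Primcodable β]

theorem prim_wZl_const {f : β → Word} (hf : Primrec f) (k : Bool) :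
    Primrec fun a => wZl k (f a) := by
  have hu : Primrec fun a => wUz (f a) := prim_wCm (prim_wPow hf _) (Primrec.const _)
  exact prim_append hf (prim_append hu (prim_wCm (prim_wCm (prim_wPow hu _) (Primrec.const _))
    (Primrec.const _)))

theorem prim_wZl {f : β → Word} {k : β → Bool} (hf : Primrec f) (hk : Primrec k) :
    Primrec fun a => wZl (k a) (f a) :=
  (Primrec.cond hk (prim_wZl_const hf true) (prim_wZl_const hf false)).of_eq fun a => by
    cases k a <;> rfl

theorem prim_wZw {g : β → List Bool} (hg : Primrec g) (z : Word) :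
    Primrec fun a => wZw (g a) z := by
  unfold wZw
  have h : Primrec₂ (fun (_ : β) (p : Word × Bool) => wZl p.2 p.1) :=
    prim_wZl (β := β × (Word × Bool)) (Primrec.fst.comp Primrec.snd)
      (Primrec.snd.comp Primrec.snd)
  generalize wZl = F at h ⊢
  exact Primrec.list_foldl hg (Primrec.const z) h

theorem prim_wPv {f g : β → Word} (hf : Primrec f) (hg : Primrec g) :
    Primrec fun a => wPv (f a) (g a) := by
  unfold wPv
  exact prim_wCm (prim_wCm (prim_wPow hf _) (Primrec.const _))
    (prim_wCm (prim_wPow hg _) (Primrec.const _))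

theorem prim_target {g : β → List Bool} (hg : Primrec g) (h : List Bool) :
    Primrec fun a => target (g a) h := by
  unfold target dW
  exact prim_append (Primrec.const _) (prim_append (prim_wPv (prim_wZw hg _) (Primrec.const _))
    (Primrec.const _))

end comp

/-! ### the variables of the target -/

/-- only the first seven variables occur -/
def V7 (w : Word) : Prop := ∀ p ∈ w, p.1 < 7

theorem V7.append {v w : Word} (hv : V7 v) (hw : V7 w) : V7 (v ++ w) := fun p hp =>
  (List.mem_append.1 hp).elim (hv p) (hw p)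

theorem V7.inv {w : Word} (hw : V7 w) : V7 (wInv w) := fun p hp => by
  unfold wInv at hp
  rw [List.mem_reverse, List.mem_map] at hp
  obtain ⟨q, hq, rfl⟩ := hp
  exact hw q hq

theorem V7.pow {w : Word} (hw : V7 w) (n : ℕ) : V7 (wPow w n) := fun p hp => by
  unfold wPow at hp
  rw [List.mem_flatMap] at hp
  obtain ⟨_, _, hq⟩ := hp
  exact hw p hq

theorem V7.var {i : ℕ} (hi : i < 7) : V7 (wv i) := fun p hp => by
  rw [wv, List.mem_singleton] at hp
  rw [hp]
  exact hi

theorem V7.cm {v w : Word} (hv : V7 v) (hw : V7 w) : V7 (wCm v w) :=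
  hv.inv.append (hw.inv.append (hv.append hw))

theorem v7_wSl (k : Bool) : V7 (wSl k) := by
  cases k
  · exact (V7.var (by decide)).pow _
  · exact (V7.var (by decide)).pow _

theorem v7_wZl (k : Bool) {z : Word} (hz : V7 z) : V7 (wZl k z) := by
  have hu : V7 (wUz z) := (hz.pow _).cm ((V7.var (by decide)).pow _)
  exact hz.append (hu.append (((hu.pow _).cm ((V7.var (by decide)).pow _)).cm (v7_wSl k)))

theorem v7_wZw (g : List Bool) {z : Word} (hz : V7 z) : V7 (wZw g z) := by
  induction g generalizing z with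
  | nil => exact hz
  | cons k g ih => exact ih (v7_wZl k hz)

theorem v7_wPv {z h : Word} (hz : V7 z) (hh : V7 h) : V7 (wPv z h) :=
  ((hz.pow _).cm ((V7.var (by decide)).pow _)).cm ((hh.pow _).cm ((V7.var (by decide)).pow _))

theorem v7_target (g h : List Bool) : V7 (target g h) := by
  have h4 : ∀ g, V7 (wPv (wZw g (wv 4)) (wv 5)) := fun g =>
    v7_wPv (v7_wZw g (V7.var (by decide))) (V7.var (by decide))
  exact (V7.var (by decide)).append ((h4 g).append (h4 h).inv)

/-! ### the package -/

open Pool.Agent.Helper583 (exists_system inpW prim_inpW liftA actW_liftA) in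
open Pool.Agent.Y669.GW (diag diag_partrec re_eqv canonical) in
/-- **The package** for one single word. -/
theorem package : ∃ (B : Word) (t : ℕ → Word) (A : ℕ → Prop), Computable t ∧
    (∀ n, ∀ p ∈ t n, p.1 < 7) ∧ REPred A ∧ (∀ n, 0 ∈ diag n → A n) ∧
    (∀ n, A n → ∀ (G : Type u) [Group G] (E : Word → Prop), ClosedFor G [B] E → E (t n)) ∧
    (∀ n, 1 ∈ diag n → ∃ (s : Type u) (_ : Finite s) (α : Bool → s → s),
      Good α B ∧ ¬ Good α (t n)) ∧
    ∀ n, ¬ A n → ∃ (s : Type u) (_ : Countable s) (α : Bool → s → s),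
      Good α B ∧ ¬ Good α (t n) := by
  obtain ⟨R, c1, c2, d0, d1, h, hR, hc1, hh, hn⟩ :=
    exists_system diag (Partrec.nat_iff.1 diag_partrec)
  have hin : ∀ n, inpW c1 c2 d0 d1 n ≠ [] := by
    intro n
    unfold inpW
    simp [hc1]
  refine ⟨oneWord R, fun n => target (inpW c1 c2 d0 d1 n) h,
    fun n => Relation.EqvGen (RStep R) (inpW c1 c2 d0 d1 n) h,
    (prim_target (prim_inpW c1 c2 d0 d1) h).to_comp, fun n => v7_target _ _, re_eqv R h (prim_inpW c1 c2 d0 d1),
    fun n h0 => (hn n).1 h0, fun n h0 G _ E hE => ?_, fun n h1 => ?_, fun n h1 => ?_⟩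
  · exact target_mem hE h0
  · obtain ⟨s, hs, α, m, hrel, hne⟩ := (hn n).2 h1
    refine ⟨ULift.{u} s, inferInstance, liftA.{u} α, ?_, ?_⟩
    · refine good_one (liftA α) R fun p hp => ⟨hR p hp, fun m => ?_⟩
      rw [actW_liftA, actW_liftA, hrel p hp]
    · refine target_not_good (liftA.{u} α) (hin n) hh ⟨m⟩ ?_
      rw [actW_liftA, actW_liftA]
      intro e
      exact hne (congrArg ULift.down e)
  · obtain ⟨s, hs, α, m, hrel, hne⟩ := canonical.{u} R _ _ h1
    exact ⟨s, hs, α, good_one α R fun p hp => ⟨hR p hp, hrel p hp⟩,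
      target_not_good α (hin n) hh m hne⟩

/-- The permutations of a finite type of the model form a finite symmetric group. -/
theorem exists_perm (s : Type u) [Finite s] :
    ∃ n : ℕ, Nonempty (Equiv.Perm (VV s) ≃* Equiv.Perm (Fin n)) := by
  have : Finite (VV s) := by
    unfold VV W2 K
    infer_instance
  obtain ⟨n, ⟨e⟩⟩ := Finite.exists_equiv_fin (VV s)
  exact ⟨n, ⟨e.permCongrHom⟩⟩

end Pool.Agent.H11.OW
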